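import Pool.Agent.Q146.Pandi

/-!
# Bipartite `d`-degenerate graphs that are not pandichotomous in `ℝ^(d-1)`

For every `d ≥ 1` there is a finite bipartite `d`-degenerate graph which is not pandichotomous in
`ℝ^(d-1)`.

The graph: `d` vertices `i`, one vertex `T` for each set `T` of these, joined to all `i`, and one
vertex `(S, T')` for each set `S` of at most `d` vertices of the second kind and each set `T'` of
vertices of the second kind, joined to the members of `S`. The edge from `i` to `T` is short
if `i ∈ T`, the edge from `(S, T')` to a member of `S` is short if it belongs to `T'`.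

Outline: the last vertices show that any `d` vertices of the second kind are cut by balls of radius
`δ` in all ways. From this it follows that every ball of radius `δ` cuts the set of vertices of the
second kind like a half-space (otherwise there is a circuit of `d + 1` points with a wrong sign; a
linear combination of its relation and a relation of `d` of the points gives a contradiction). But
`d` half-spaces of `ℝ^(d-1)` do not have all `2^d` cells.
-/

set_option autoImplicit false

namespace Pool.Agent.Results.MP_8dd54d_co.BipartiteDegenerate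

/-- Every nonempty subgraph has a vertex of degree at most `d`. -/
def IsDegenerate {V : Type} (G : SimpleGraph V) (d : ℕ) : Prop :=
  ∀ H : G.Subgraph, H.verts.Nonempty → ∃ v ∈ H.verts, (H.neighborSet v).ncard ≤ d

/-- For every set `Es` of edges (the short ones; the other edges are long) there are an injective
map `p` of the vertices into `ℝ^k` and a threshold `δ > 0` such that the edges of length at most `δ`
are exactly the short ones. -/
def Pandichotomous {V : Type} (G : SimpleGraph V) (k : ℕ) : Prop :=
  ∀ Es ⊆ G.edgeSet, ∃ (p : V → EuclideanSpace ℝ (Fin k)) (δ : ℝ), Function.Injective p ∧ 0 < δ ∧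
    ∀ u v, G.Adj u v → (dist (p u) (p v) ≤ δ ↔ s(u, v) ∈ Es)

/-- The vertices of the graph. -/
abbrev Vert (d : ℕ) : Type :=
  Fin d ⊕ (Finset (Fin d) ⊕
    ({S : Finset (Finset (Fin d)) // S.card ≤ d} × Finset (Finset (Fin d))))

/-- One direction of the adjacency. -/
def pre {d : ℕ} : Vert d → Vert d → Prop
  | Sum.inl _, Sum.inr (Sum.inl _) => True
  | Sum.inr (Sum.inr c), Sum.inr (Sum.inl T) => T ∈ c.1.1
  | _, _ => False

/-- The short ones. -/
def short {d : ℕ} : Vert d → Vert d → Prop
  | Sum.inl i, Sum.inr (Sum.inl T) => i ∈ T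
  | Sum.inr (Sum.inr c), Sum.inr (Sum.inl T) => T ∈ c.1.1 ∧ T ∈ c.2
  | _, _ => False

/-- The graph. -/
def graph (d : ℕ) : SimpleGraph (Vert d) where
  Adj u v := pre u v ∨ pre v u
  symm := ⟨fun _ _ h => h.symm⟩
  loopless := ⟨by
    intro v h
    rcases v with i | T | c <;> simp [pre] at h⟩

theorem bipartite (d : ℕ) : (graph d).IsBipartite := by
  refine ⟨SimpleGraph.Coloring.mk
    (fun v => match v with
      | Sum.inl _ => (0 : Fin 2)
      | Sum.inr (Sum.inl _) => 1
      | Sum.inr (Sum.inr _) => 0) ?_⟩
  intro u v h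
  rcases u with i | T | c <;> rcases v with j | T' | c' <;> simp [graph, pre] at h ⊢

theorem degenerate (d : ℕ) : IsDegenerate (graph d) d := by
  classical
  intro H hH
  by_cases h1 : ∃ c, (Sum.inr (Sum.inr c) : Vert d) ∈ H.verts
  · obtain ⟨c, hc⟩ := h1
    refine ⟨_, hc, ?_⟩
    have hsub : H.neighborSet (Sum.inr (Sum.inr c)) ⊆
        (fun T => (Sum.inr (Sum.inl T) : Vert d)) '' (c.1.1 : Set (Finset (Fin d))) := by
      intro v hv
      have h2 : (graph d).Adj (Sum.inr (Sum.inr c)) v := H.adj_sub hv
      rcases v with j | T' | c' <;> simp [graph, pre] at h2 ⊢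
      exact h2
    refine (Set.ncard_le_ncard hsub (Set.toFinite _)).trans ?_
    refine (Set.ncard_image_le (Set.toFinite _)).trans ?_
    rw [Set.ncard_coe_finset]
    exact c.1.2
  by_cases h2 : ∃ T, (Sum.inr (Sum.inl T) : Vert d) ∈ H.verts
  · obtain ⟨T, hT⟩ := h2
    refine ⟨_, hT, ?_⟩
    have hsub : H.neighborSet (Sum.inr (Sum.inl T)) ⊆
        (fun i => (Sum.inl i : Vert d)) '' (Set.univ : Set (Fin d)) := by
      intro v hv
      have h3 : (graph d).Adj (Sum.inr (Sum.inl T)) v := H.adj_sub hv
      rcases v with j | T' | c'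
      · simp
      · simp [graph, pre] at h3
      · exfalso
        exact h1 ⟨c', H.edge_vert (SimpleGraph.Subgraph.Adj.symm hv)⟩
    refine (Set.ncard_le_ncard hsub (Set.toFinite _)).trans ?_
    refine (Set.ncard_image_le (Set.toFinite _)).trans ?_
    rw [Set.ncard_univ, Nat.card_eq_fintype_card, Fintype.card_fin]
  · obtain ⟨v, hv⟩ := hH
    refine ⟨v, hv, ?_⟩
    have hempty : H.neighborSet v = ∅ := by
      rw [Set.eq_empty_iff_forall_notMem]
      intro w hw
      have h3 : (graph d).Adj v w := H.adj_sub hw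
      have hw' : w ∈ H.verts := H.edge_vert (SimpleGraph.Subgraph.Adj.symm hw)
      rcases v with j | T' | c'
      · rcases w with j' | T'' | c''
        · simp [graph, pre] at h3
        · exact h2 ⟨_, hw'⟩
        · exact h1 ⟨_, hw'⟩
      · exact h2 ⟨_, hv⟩
      · exact h1 ⟨_, hv⟩
    rw [hempty, Set.ncard_empty]
    exact Nat.zero_le _

theorem not_pandichotomous {d : ℕ} (hd : 1 ≤ d) : ¬ Pandichotomous (graph d) (d - 1) := by
  classical
  intro hP
  obtain ⟨p, δ, -, hδ, hp⟩ := hP {e | ∃ u v, e = s(u, v) ∧ short u v} (by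
    rintro e ⟨u, v, rfl, h⟩
    rw [SimpleGraph.mem_edgeSet]
    rcases u with i | T | c <;> rcases v with j | T' | c' <;>
      simp [graph, pre, short] at h ⊢
    exact h.1)
  -- make all inequalities strict
  obtain ⟨r, hr, hrlong⟩ : ∃ r, δ < r ∧ ∀ u v, ¬ dist (p u) (p v) ≤ δ → r < dist (p u) (p v) := by
    have h1 : ∀ᶠ r in nhdsWithin δ (Set.Ioi δ), ∀ u v, ¬ dist (p u) (p v) ≤ δ →
        r < dist (p u) (p v) := by
      rw [Filter.eventually_all]
      intro u
      rw [Filter.eventually_all]
      intro v
      by_cases h : dist (p u) (p v) ≤ δ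
      · simp [h]
      · have h2 : δ < dist (p u) (p v) := not_le.1 h
        filter_upwards [nhdsWithin_le_nhds (eventually_lt_nhds h2)] with r hr _
        exact hr
    obtain ⟨r, h2, h3⟩ := (h1.and self_mem_nhdsWithin).exists
    exact ⟨r, h3, h2⟩
  have hshort : ∀ u v : Vert d, pre u v → ((short u v → dist (p u) (p v) < r) ∧
      (¬ short u v → r < dist (p u) (p v))) := by
    intro u v h
    have h1 := hp u v (Or.inl h)
    refine ⟨fun h2 => lt_of_le_of_lt (h1.2 ⟨u, v, rfl, h2⟩) hr, fun h2 => ?_⟩
    apply hrlong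
    intro h3
    obtain ⟨u', v', he, h4⟩ := h1.1 h3
    rcases Sym2.eq_iff.1 he with ⟨rfl, rfl⟩ | ⟨rfl, rfl⟩
    · exact h2 h4
    · rcases u with i | T | c <;> rcases v with j | T' | c' <;>
        simp [pre, short] at h h4
  have hfin : Module.finrank ℝ (EuclideanSpace ℝ (Fin (d - 1))) + 1 = d := by
    rw [finrank_euclideanSpace, Fintype.card_fin]
    omega
  apply Pool.Agent.Q146.Pandi.no_realization hfin (fun i => p (Sum.inl i))
    (fun T => p (Sum.inr (Sum.inl T))) (hδ.trans hr)
  · intro S T hS
    refine ⟨p (Sum.inr (Sum.inr (⟨S, hS⟩, T))), fun U hU => ?_⟩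
    have h1 := hshort (Sum.inr (Sum.inr (⟨S, hS⟩, T))) (Sum.inr (Sum.inl U)) hU
    exact ⟨fun h2 => h1.1 ⟨hU, h2⟩, fun h2 => h1.2 (fun h3 => h2 h3.2)⟩
  · intro i T
    exact hshort (Sum.inl i) (Sum.inr (Sum.inl T)) trivial

/-- For every `d ≥ 1` (in particular for every `d ≥ 3`, which is Q1) there is a finite bipartite
`d`-degenerate graph that is not pandichotomous in `ℝ^(d-1)`. -/
theorem result (d : ℕ) (hd : 1 ≤ d) :
    ∃ (V : Type) (_ : Fintype V) (G : SimpleGraph V),
      G.IsBipartite ∧ IsDegenerate G d ∧ ¬ Pandichotomous G (d - 1) :=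
  ⟨Vert d, inferInstance, graph d, bipartite d, degenerate d, not_pandichotomous hd⟩

end Pool.Agent.Results.MP_8dd54d_co.BipartiteDegenerate
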